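import Pool.Agent.J4H1.GF.All

set_option autoImplicit false

/-!
Products of at most four values `ζ(1/2 + i(t + a_j))` with arbitrary fixed shifts `a_j` (all of them may be `0`)
against the same number of values `ζ(1/2 - i(t + b_j))` with generic shifts `b ∈ [0, T]^k`: the mean value over
`0 ≤ t ≤ S` is the diagonal term of the recipe of Conrey, Farmer, Keating, Rubinstein and Snaith, up to a power saving,
for all `b` outside of a set of measure `T^(k - δ)`.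
-/

open MeasureTheory Complex

namespace Pool.Agent.Results.MP_112ba8_nt.FixedAndGenericShifts

noncomputable section

/-- the sum over all `(d_1, ..., d_k)` with product `m` of `∏ d_j^(x_j)` -/
def sig {k : ℕ} (x : Fin k → ℂ) (m : ℕ) : ℂ := ∑ d ∈ Nat.finMulAntidiag k m, ∏ j, (d j : ℂ) ^ x j

/-- the local factor at `p` -/
def euler {k : ℕ} (a b : Fin k → ℝ) (p : ℕ) : ℂ :=
  (∏ j, ∏ l, (1 - (p : ℂ) ^ (-(1 + I * (a j - b l))))) *
    ∑' m : ℕ, sig (fun j => -(I * a j)) (p ^ m) * sig (fun j => I * b j) (p ^ m) / (p : ℂ) ^ m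

/-- the diagonal term -/
def diag {k : ℕ} (a b : Fin k → ℝ) : ℂ :=
  (∏' p : Nat.Primes, euler a b p) * ∏ j, ∏ l, riemannZeta (1 + I * (a j - b l))

/-- the shifted moment over `[0, S]` -/
def moment {k : ℕ} (a b : Fin k → ℝ) (S : ℝ) : ℂ :=
  ∫ t in (0 : ℝ)..S, (∏ j, riemannZeta (1 / 2 + I * (t + a j))) * ∏ j, riemannZeta (1 / 2 - I * (t + b j))

lemma euler_eq {k : ℕ} (a b : Fin k → ℝ) (p : ℕ) :
    euler a b p = Pool.Agent.TH612.CF.lh (fun j => (a j : ℂ)) (fun j => (b j : ℂ)) p := by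
  unfold euler Pool.Agent.TH612.CF.lh
  congr 1
  · refine Finset.prod_congr rfl fun j _ => Finset.prod_congr rfl fun l _ => ?_
    congr 3
    ring
  · refine tsum_congr fun m => ?_
    unfold Pool.Agent.TH612.CF.lt sig Pool.Agent.W182.KO.tau
    rw [div_eq_mul_inv]
    ring

lemma diag_eq {k : ℕ} (a b : Fin k → ℝ) :
    diag a b = Pool.Agent.TH612.GS.zr (Pool.Agent.TH612.GS.gab a b) := by
  unfold diag Pool.Agent.TH612.GS.zr Pool.Agent.TH612.CF.zab Pool.Agent.TH612.CF.FH Pool.Agent.TH612.GS.gab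
  simp only [Sum.elim_inl, Sum.elim_inr]
  congr 1
  · exact tprod_congr fun p => euler_eq a b p
  · refine Finset.prod_congr rfl fun j _ => Finset.prod_congr rfl fun l _ => ?_
    congr 1
    ring

lemma moment_eq {k : ℕ} (a b : Fin k → ℝ) (S : ℝ) :
    moment a b S = ∫ t in (0 : ℝ)..S, Pool.Agent.TH612.CF.Zg (Pool.Agent.TH612.GS.gab a b) t := by
  unfold moment Pool.Agent.TH612.CF.Zg Pool.Agent.TH612.GS.gab
  simp only [Sum.elim_inl, Sum.elim_inr, Finset.prod_mul_distrib]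

lemma euler_le (k : ℕ) : ∃ C : ℝ, ∀ (a b : Fin k → ℝ) (p : ℕ), p.Prime → ‖euler a b p - 1‖ ≤ C / (p : ℝ) ^ 2 := by
  refine ⟨Pool.Agent.TH612.CF.CK k 0, fun a b p hp => ?_⟩
  rw [euler_eq]
  have hT : Pool.Agent.TH612.CF.Tb 0 (fun j => (a j : ℂ)) (fun j => (b j : ℂ)) := fun j => by
    simp
  refine (Pool.Agent.TH612.CF.lh_le (by norm_num) hT hp).trans (le_of_eq ?_)
  rw [div_eq_mul_inv]
  congr 1
  rw [← Real.rpow_natCast, ← Real.rpow_neg (Nat.cast_nonneg p)]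
  norm_num

theorem result (k : ℕ) (hk : k ≤ 4) :
    (∃ C : ℝ, ∀ (a b : Fin k → ℝ) (p : ℕ), p.Prime → ‖euler a b p - 1‖ ≤ C / (p : ℝ) ^ 2) ∧
    ∃ δ : ℝ, 0 < δ ∧ ∀ a : Fin k → ℝ, ∃ T₀ : ℝ, ∀ T : ℝ, T₀ ≤ T → ∀ S : ℝ, 0 ≤ S → S ≤ T →
      volume {b : Fin k → ℝ | (∀ j, 0 ≤ b j ∧ b j ≤ T) ∧ T ^ (1 - δ) < ‖moment a b S - S * diag a b‖} ≤
        ENNReal.ofReal (T ^ (k - δ)) := by
  refine ⟨euler_le k, ?_⟩
  obtain ⟨δ, hδ, h⟩ := Pool.Agent.J4H1.GF.all_D k hk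
  refine ⟨δ, hδ, fun a => ?_⟩
  obtain ⟨T₀, hT₀⟩ := h a
  refine ⟨T₀, fun T hT S hS hST => ?_⟩
  have h1 := hT₀ T hT S hS hST
  refine le_trans ?_ h1
  have e : Pool.Agent.TH612.GS.mP (Fin k) T =
      (volume : Measure (Fin k → ℝ)).restrict (Set.univ.pi fun _ => Set.Icc 0 T) := by
    unfold Pool.Agent.TH612.GS.mP
    rw [volume_pi, Measure.restrict_pi_pi]
  rw [e]
  refine le_trans ?_ (Measure.le_restrict_apply _ _)
  refine measure_mono fun b hb => ?_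
  refine ⟨⟨hb.1, ?_⟩, fun j _ => hb.1 j⟩
  have h2 := hb.2
  rw [moment_eq, diag_eq] at h2
  exact h2

end

end Pool.Agent.Results.MP_112ba8_nt.FixedAndGenericShifts
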