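import Pool.Agent.J4H26.SZ.AllX

set_option autoImplicit false

/-!
# Shifted moments of zeta of every order with a fourth power, for almost all shifts

For almost all `c ∈ [0,T]^n` the integral of `|ζ(1/2 + it)|⁴ |ζ(1/2 + i(t + c_1))|² ⋯ |ζ(1/2 + i(t + c_n))|²` over `[0,T]`
is asymptotic to its leading term. No hypothesis is assumed and `n` is arbitrary; for `n = 1` it is a sixth moment of zeta
with one shift, for `n = 2` an eighth moment with two shifts.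

Much of the analysis is in the starting files (project SX: `Pool.Agent.Y969.SM` and the files with the parts), which stop
short of the theorem: it needs the mean square of zeta with a power saving in a form that is proved in
`Pool.Agent.J4H26.SZ.Sm2`.
-/

namespace Pool.Agent.Results.MP_112ba8_nt.FourthPowerGenericShifts

open Complex Filter Topology MeasureTheory Set

noncomputable section

/-- `|ζ(1/2 + iu)|²` -/
def Z2 (u : ℝ) : ℝ := ‖riemannZeta (1 / 2 + I * u)‖ ^ 2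

/-- The local density: `(1 - 1/p)^(n+4)` times the mean over `θ ∈ [0,1]` of
`|1 - e(θ) p^{-1/2}|^{-4} ∏_j |1 - e(θ) p^{-1/2-ic_j}|^{-2}`. -/
def dens {n : ℕ} (c : Fin n → ℝ) (p : ℕ) : ℝ :=
  (1 - 1 / (p : ℝ)) ^ (n + 4) * ∫ θ in (0:ℝ)..1,
    1 / (‖1 - cexp (2 * Real.pi * I * θ) * (p : ℂ) ^ (-(1 / 2) : ℂ)‖ ^ 4 *
      ∏ j, ‖1 - cexp (2 * Real.pi * I * θ) * (p : ℂ) ^ (-(1 / 2 + I * c j))‖ ^ 2)

/-- `∏_j |f(1 + ic_j)|⁴ ∏_{i<j} |f(1 + i(c_i - c_j))|²` -/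
def pairs {n : ℕ} (f : ℂ → ℂ) (c : Fin n → ℝ) : ℝ :=
  (∏ j, ‖f (1 + I * c j)‖ ^ 4) * ∏ i, ∏ j ∈ Finset.Ioi i, ‖f (1 + I * (c i - c j))‖ ^ 2

/-- The constant of the leading term for `|ζ(1/2 + it)|⁴ ∏_j |ζ(1/2 + i(t + c_j))|²`: the product of `1/12`, of the
values `|ζ(1 + ic_j)|⁴`, `|ζ(1 + i(c_i - c_j))|²` and of an absolutely convergent Euler product. -/
def lead {n : ℕ} (c : Fin n → ℝ) : ℝ :=
  1 / 12 * (pairs riemannZeta c * ∏' p : Nat.Primes, dens c p * pairs (fun s => 1 - (p : ℂ) ^ (-s)) c)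

lemma lead_eq {n : ℕ} (c : Fin n → ℝ) : lead c = 1 / 12 * (Pool.Agent.Y969.SM.zp c * Pool.Agent.Y969.SM.AA c) := rfl

/-- **Shifted moments with a fourth power, for almost all shifts.** Let `n` be a natural number. For every `ε > 0` and
`T ≥ T₀(ε)`: `∫_0^T |ζ(1/2+it)|⁴ ∏_j |ζ(1/2+i(t+c_j))|² dt` is between `1 - ε` and `1 + ε` times `lead(c) T (log T)^(n+4)`
for all `c ∈ [0,T]^n` outside a set of measure at most `ε T^n`. The Euler product in `lead` converges absolutely,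
uniformly in `c`. -/
theorem result (n : ℕ) :
    (∀ ε : ℝ, 0 < ε → ∃ T₀ : ℝ, ∀ T : ℝ, T₀ ≤ T →
      volume {c : Fin n → ℝ | (∀ j, 0 ≤ c j ∧ c j ≤ T) ∧
        ¬ |(∫ t in (0 : ℝ)..T, Z2 t ^ 2 * ∏ j, Z2 (t + c j)) / (lead c * (T * Real.log T ^ (n + 4))) - 1| ≤ ε} ≤
          ENNReal.ofReal (ε * T ^ n)) ∧
    (∃ K : ℝ, ∀ c : Fin n → ℝ, ∀ p : ℕ, p.Prime →
      |dens c p * pairs (fun s => 1 - (p : ℂ) ^ (-s)) c - 1| ≤ K / (p : ℝ) ^ 2) := by
  refine ⟨?_, ?_⟩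
  · intro ε hε
    obtain ⟨T₀, h⟩ := eventually_atTop.1 (Pool.Agent.J4H26.SZ.x_REL n ε hε)
    refine ⟨T₀, fun T hT => ?_⟩
    refine le_trans (le_of_eq ?_) (h T hT)
    congr 1
    ext c
    have e1 : (∫ t in (0:ℝ)..T, Z2 t ^ 2 * ∏ j, Z2 (t + c j)) =
        ∫ t in (0:ℝ)..T, Pool.Agent.Y969.SM.Xz t ^ 4 * ∏ j, Pool.Agent.Y969.GP.ff (t + c j) := by
      refine intervalIntegral.integral_congr fun t _ => ?_
      simp only [Pool.Agent.Y969.SM.Xz_eq]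
      unfold Z2 Pool.Agent.Y969.GP.ff
      ring
    simp only [Set.mem_ofPred_eq, e1, lead_eq]
  · obtain ⟨C2, -, h2⟩ := Pool.Agent.J4H26.SZ.x_AA n
    exact ⟨C2, fun c p hp => ((h2 c).1 p hp).2⟩

end

end Pool.Agent.Results.MP_112ba8_nt.FourthPowerGenericShifts
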