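import Pool.Agent.J4H1.GD.All

set_option autoImplicit false

/-!
# Moments of the zeta function at generic dilations

There is `δ > 0` such that for every `k ≥ 1` there is `s < k` with the following property.  Let `F` be a measurable
weight with `∫_0^T |F|² ≤ C_ε T^(1+ε)` for every `ε > 0` (for example `F = 1` or `F(t) = |ζ(1/2+it)|²`).  For all
`λ ∈ (0, ∞)^k` outside a set of Hausdorff dimension at most `s`,

`∫_0^T F(t) ∏_j |ζ(1/2+iλ_j t)|² dt = ∫_0^T F(t) ∏_j (log (λ_j t/2π) + 2γ) dt + O(T^(1-δ))`.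

The proof: Mellin transforms of `|ζ|² - (log + 2γ)` are small at all frequencies (van der Corput's method applied to the
terms off the diagonal of the approximate functional equation), Plancherel's theorem over the dilations, Tonelli's
theorem for several dilations, and a covering argument.
-/

open Filter Topology MeasureTheory

namespace Pool.Agent.Results.MP_112ba8_nt.GenericDilations

/-- `|ζ(1/2 + iu)|²` -/
noncomputable def Z2 (u : ℝ) : ℝ := ‖riemannZeta (1 / 2 + u * Complex.I)‖ ^ 2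

/-- the density of the mean square of the zeta function -/
noncomputable def dens (u : ℝ) : ℝ := Real.log (u / (2 * Real.pi)) + 2 * Real.eulerMascheroniConstant

/-- Weights whose mean square up to `T` is at most `T^(1+o(1))`. -/
def Weight (F : ℝ → ℂ) : Prop := Measurable F ∧ ∀ ε : ℝ, 0 < ε → ∃ C : ℝ, ∀ T : ℝ, 1 ≤ T →
  ∫⁻ t in Set.Ioc 0 T, ‖F t‖ₑ ^ 2 ≤ ENNReal.ofReal (C * T ^ (1 + ε))

lemma ff_eq (u : ℝ) : Pool.Agent.Y969.GP.ff u = Z2 u := by
  unfold Pool.Agent.Y969.GP.ff Z2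
  rw [mul_comm Complex.I]

lemma weight_iff {F : ℝ → ℂ} (h : Weight F) : Pool.Agent.N879.GD.Gr F := by
  refine ⟨h.1, fun ε hε => ?_⟩
  obtain ⟨C, hC⟩ := h.2 ε hε
  refine ⟨max C 1, lt_max_of_lt_right one_pos, fun T hT => (hC T hT).trans ?_⟩
  refine ENNReal.ofReal_le_ofReal ?_
  gcongr
  exact le_max_left _ _

/-- `|ζ(1/2+it)|²` is a weight. -/
lemma weight_Z2 : Weight (fun t => ((Z2 t : ℝ) : ℂ)) := by
  obtain ⟨C0, N, hC0, hcont, -, -⟩ := Pool.Agent.J4H1.GD.all_CRU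
  have hc : Continuous Z2 := by
    have : Pool.Agent.Y969.GP.ff = Z2 := funext ff_eq
    rw [← this]; exact hcont
  refine ⟨(Complex.continuous_ofReal.comp hc).measurable, fun ε hε => ?_⟩
  obtain ⟨C, hC, h⟩ := Pool.Agent.N879.GD.t_M4' ε hε
  refine ⟨C, fun T hT => ?_⟩
  have h1 : ∫⁻ t in Set.Ioc 0 T, ‖((Z2 t : ℝ) : ℂ)‖ₑ ^ 2 = ∫⁻ t in Set.Ioc 0 T, ENNReal.ofReal (Z2 t ^ 2) := by
    refine lintegral_congr fun t => ?_
    rw [← ofReal_norm, Complex.norm_real, ← ENNReal.ofReal_pow (norm_nonneg _), Real.norm_eq_abs, sq_abs]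
  rw [h1, ← ofReal_integral_eq_lintegral_ofReal]
  · refine ENNReal.ofReal_le_ofReal ?_
    have h2 := h T hT
    rw [intervalIntegral.integral_of_le (by linarith)] at h2
    simpa only [ff_eq] using h2
  · exact ((hc.pow 2).integrableOn_Icc (μ := volume)).mono_set Set.Ioc_subset_Icc_self
  · exact Eventually.of_forall fun t => by positivity

/-- `1` is a weight. -/
lemma weight_one : Weight (fun _ => 1) := by
  refine ⟨measurable_const, fun ε hε => ⟨1, fun T hT => ?_⟩⟩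
  have h0 : (0:ℝ) < T := by linarith
  simp only [enorm_one, one_pow, lintegral_const, one_mul, Measure.restrict_apply MeasurableSet.univ, Set.univ_inter,
    Real.volume_Ioc, sub_zero]
  refine ENNReal.ofReal_le_ofReal ?_
  calc T = T ^ (1:ℝ) := (Real.rpow_one T).symm
    _ ≤ T ^ (1 + ε) := Real.rpow_le_rpow_of_exponent_le hT (by linarith)

/-- Moments of the zeta function at generic dilations, with a power saving. -/
theorem result :
    (∃ δ : ℝ, 0 < δ ∧ δ < 1 ∧ ∀ k : ℕ, 0 < k → ∃ s : ℝ, 0 < s ∧ s < k ∧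
      ∀ F : ℝ → ℂ, Weight F → ∃ E : Set (Fin k → ℝ), dimH E ≤ ENNReal.ofReal s ∧
      ∀ l : Fin k → ℝ, l ∉ E → (∀ j, 0 < l j) → ∃ C : ℝ, ∀ T : ℝ, 1 ≤ T →
        ‖(∫ t in (0 : ℝ)..T, F t * ((∏ j, Z2 (l j * t) : ℝ) : ℂ)) -
          ∫ t in (0 : ℝ)..T, F t * ((∏ j, dens (l j * t) : ℝ) : ℂ)‖ ≤ C * T ^ (1 - δ)) ∧
    Weight (fun _ => 1) ∧ Weight (fun t => ((Z2 t : ℝ) : ℂ)) := by
  refine ⟨?_, weight_one, weight_Z2⟩
  obtain ⟨δ, hδ, hδ1, h⟩ := Pool.Agent.J4H1.GD.all_FIN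
  refine ⟨δ, hδ, hδ1, fun k hk => ?_⟩
  obtain ⟨s, hs, hsk, h1⟩ := h k hk
  refine ⟨s, hs, hsk, fun F hF => ?_⟩
  obtain ⟨E, hE, h2⟩ := h1 F (weight_iff hF)
  refine ⟨E, hE, fun l hl hl0 => ?_⟩
  obtain ⟨C, hC⟩ := h2 l hl hl0
  refine ⟨C, fun T hT => ?_⟩
  have h3 := hC T hT
  simp only [ff_eq] at h3
  exact h3

end Pool.Agent.Results.MP_112ba8_nt.GenericDilations
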