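import Pool.Agent.J4H26.SZ.AllG

set_option autoImplicit false

/-!
# The shifted moments of zeta of every order with a power saving, for almost all shifts

The moment of order `2k` on the critical line with its `k` factors `|ζ(1/2 + it)|²` moved apart: for all `c ∈ [0,T]^n`
outside a set of measure `T^(n-δ)` the integral of `|ζ(1/2 + it)|² |ζ(1/2 + i(t + c_1))|² ⋯ |ζ(1/2 + i(t + c_n))|²` over
`[0,S]`, `S ≤ T`, is given by the recipe of Conrey, Farmer, Keating, Rubinstein and Snaith (all lower order terms) with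
the remainder `T^(1/2 + ε)`. No hypothesis is assumed and `n` is arbitrary.

Much of the analysis is in the starting files (project GP: `Pool.Agent.Y969.GP` and the files with the parts), which stop
short of the theorem: it needs two statements that are proved in `Pool.Agent.J4H26.SZ` (the mean square of zeta on the
critical line and, uniformly, on the lines to the right of it).
-/

namespace Pool.Agent.Results.MP_112ba8_nt.RecipeForGenericShifts

open Complex Filter Topology MeasureTheory Set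

noncomputable section

/-- `|ζ(1/2 + iu)|²` -/
def Z2 (u : ℝ) : ℝ := ‖riemannZeta (1 / 2 + I * u)‖ ^ 2

/-- The shifts `0, c_1, …, c_n`. -/
def shifts {n : ℕ} (c : Fin n → ℝ) : Fin (n + 1) → ℝ := Fin.cons 0 c

/-- `∑_{d_1 ⋯ d_k = m} d_1^{x_1} ⋯ d_k^{x_k}` -/
def sig {k : ℕ} (x : Fin k → ℂ) (m : ℕ) : ℂ := ∑ d ∈ Nat.finMulAntidiag k m, ∏ j, (d j : ℂ) ^ (x j)

/-- The local factor: `∏_{j,l} (1 - p^{-1-w_j-w_l-i(c_j-c_l)})` times `∑_m σ(ic - w; p^m) σ(-ic - w; p^m) p^{-m}`. -/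
def arithp {k : ℕ} (c : Fin k → ℝ) (w : Fin k → ℂ) (p : ℕ) : ℂ :=
  (∏ j, ∏ l, (1 - (p : ℂ) ^ (-(1 + w j + w l + I * (c j - c l))))) *
    ∑' m : ℕ, sig (fun j => I * c j - w j) (p ^ m) * sig (fun j => -(I * c j) - w j) (p ^ m) * ((p : ℂ) ^ m)⁻¹

/-- The arithmetic factor: the product of the local factors over the primes. -/
def arith {k : ℕ} (c : Fin k → ℝ) (w : Fin k → ℂ) : ℂ := ∏' p : Nat.Primes, arithp c w p

/-- The density of the recipe at the height `t`: `(2πi)^{-k}` times the integral over `|w_1| = ⋯ = |w_k| = 1/8` of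
`A(c, w) ∏_{j,l} ζ(1 + w_j + w_l + i(c_j - c_l)) ∏_j (2/w_j) ((t + c_j)/2π)^{w_j}`. -/
def recipe {k : ℕ} (c : Fin k → ℝ) (t : ℝ) : ℂ :=
  ((2 * Real.pi * I) ^ k)⁻¹ * torusIntegral (fun w : Fin k → ℂ =>
    arith c w * (∏ j, ∏ l, riemannZeta (1 + w j + w l + I * (c j - c l))) *
      ∏ j, (2 / w j * cexp (w j * (Real.log ((t + c j) / (2 * Real.pi)) : ℝ)))) (fun _ => 0) (fun _ => 1 / 8)

lemma arithp_eq {k : ℕ} (c : Fin k → ℝ) (w : Fin k → ℂ) (p : ℕ) :
    arithp c w p = Pool.Agent.TH612.CF.lh (fun j => (c j : ℂ) - I * w j) (fun j => (c j : ℂ) + I * w j) p := by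
  unfold arithp Pool.Agent.TH612.CF.lh
  congr 1
  · refine Finset.prod_congr rfl fun j _ => Finset.prod_congr rfl fun l _ => ?_
    congr 2
    linear_combination -(w j + w l) * Complex.I_sq
  · refine tsum_congr fun m => ?_
    unfold Pool.Agent.TH612.CF.lt Pool.Agent.W182.KO.tau sig
    congr 2
    · refine Finset.sum_congr rfl fun d _ => Finset.prod_congr rfl fun j _ => ?_
      congr 1
      linear_combination -(w j) * Complex.I_sq
    · refine Finset.sum_congr rfl fun d _ => Finset.prod_congr rfl fun j _ => ?_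
      congr 1
      linear_combination -(w j) * Complex.I_sq

lemma rr_eq {n : ℕ} (c : Fin n → ℝ) (t : ℝ) : Pool.Agent.Y969.GP.RR c t = recipe (shifts c) t := by
  unfold Pool.Agent.Y969.GP.RR recipe arith
  congr 2
  funext w
  congr 2
  unfold Pool.Agent.TH612.CF.FH
  refine tprod_congr fun p => ?_
  rw [arithp_eq]
  rfl

/-- **The recipe for the shifted moments of every order, for almost all shifts.** Let `n` be a natural number.
For every `ε > 0` there are `δ > 0`, `T₀` such that for all `T ≥ T₀` and all `0 ≤ S ≤ T` the shifts `c ∈ [0,T]^n` with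
`|∫_0^S |ζ(1/2+it)|² ∏_j |ζ(1/2+i(t+c_j))|² dt - ∫_0^S recipe(0, c_1, …, c_n; t) dt| > T^(1/2+ε)` have measure at most
`T^(n-δ)`. The Euler product in `recipe` converges absolutely for `|w_j| ≤ 1/8`, uniformly in `c` and `w`. -/
theorem result (n : ℕ) :
    (∀ ε : ℝ, 0 < ε → ∃ δ T₀ : ℝ, 0 < δ ∧ ∀ T S : ℝ, T₀ ≤ T → 0 ≤ S → S ≤ T →
      volume {c : Fin n → ℝ | (∀ j, 0 ≤ c j ∧ c j ≤ T) ∧
        T ^ (1 / 2 + ε) < ‖((∫ t in (0 : ℝ)..S, ∏ j, Z2 (t + shifts c j) : ℝ) : ℂ) -
          ∫ t in (0 : ℝ)..S, recipe (shifts c) t‖} ≤ ENNReal.ofReal (T ^ ((n : ℝ) - δ))) ∧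
    (∃ K : ℝ, ∀ c : Fin n → ℝ, ∀ w : Fin (n + 1) → ℂ, (∀ j, ‖w j‖ ≤ 1 / 8) → ∀ p : ℕ, p.Prime →
      ‖arithp (shifts c) w p - 1‖ ≤ K * (p : ℝ) ^ (-(3 / 2) : ℝ)) := by
  refine ⟨?_, ?_⟩
  · intro ε hε
    obtain ⟨δ, T₀, hδ, h⟩ := Pool.Agent.J4H26.SZ.g_MAIN n ε hε
    refine ⟨δ, T₀, hδ, fun T S hT hS hST => ?_⟩
    have h1 := h T S hT hS hST
    simp only [rr_eq] at h1
    exact h1
  · refine ⟨Pool.Agent.TH612.CF.CK (n + 1) (1 / 8), fun c w hw p hp => ?_⟩
    rw [arithp_eq]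
    have hb : Pool.Agent.TH612.CF.Tb (1 / 8) (fun j => ((shifts c j : ℝ) : ℂ) - I * w j)
        (fun j => ((shifts c j : ℝ) : ℂ) + I * w j) := by
      intro j
      have h3 : |(w j).re| ≤ 1 / 8 := (abs_re_le_norm _).trans (hw j)
      refine ⟨?_, ?_⟩
      · have : ((shifts c j : ℂ) - I * w j).im = -(w j).re := by simp
        rw [this, abs_neg]
        exact h3
      · have : ((shifts c j : ℂ) + I * w j).im = (w j).re := by simp
        rw [this]
        exact h3
    have h := Pool.Agent.TH612.CF.lh_le (by norm_num) hb hp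
    have e : (4 * (1 / 8) - 2 : ℝ) = -(3 / 2) := by norm_num
    rwa [e] at h

end

end Pool.Agent.Results.MP_112ba8_nt.RecipeForGenericShifts
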